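import Pool.Agent.V8H25.RP.Family

/-!
# The Ramanujan bound in families of forms on `GL(2)`, at almost all primes

`K` is a number field. For every index `i` let `θ_i` be a function on the primes of `K`; for the question
it is a nontrivial character of a Hecke algebra of weight two, of any level, `θ_i(v)` being the eigenvalue of
`T_v`. It belongs to a cuspidal representation `π_i` of `GL(2)`, with unitary Satake parameters at `v`
whose sum has the absolute value `a_i(v) = |θ_i(v)| / (Nv)^{1/2}`. The question is whether `a_i(v) ≤ 2`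
for all `v`.

* `ad (θ_i) v = a_i(v)² - 1` is the trace of `Ad(π_i)` at `v`, and `a4 (θ_i) v = ad² - ad - 1`, that is
  `a_i⁴ - 3 a_i² + 1`, is the trace of the symmetric fourth power `A⁴(π_i) = Sym⁴(π_i) ⊗ ω_i⁻²`.
* `trace θ t c α β v = c + ∑_{i ∈ t} (α_i ad (θ_i) v + β_i a4 (θ_i) v)` is the trace at `v` of the
  isobaric sum `Π` of `c` times the trivial representation, `α_i` times `Ad(π_i)` and `β_i` times
  `A⁴(π_i)`.
* `RankinSelberg θ`: for all natural numbers `c`, `α_i`, `β_i` there is a constant `C` such that for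
  `1 < s < 2` all finite sums of terms `(tr Π_v)² Nv^{-s}` are at most
  `(c² + ∑ (α_i² + β_i²)) log (1 / (s - 1)) + C`; and the same for `i ≠ j` and
  `Π = (c + α Ad(π_i)) ⊗ (c' + α' Ad(π_j))`, with the factor `(c² + α²) (c'² + α'²)`. This is known if the
  `π_i` are cuspidal and not dihedral and the `Ad(π_i)` and the `A⁴(π_i)` are pairwise not isomorphic:
  these representations are cuspidal (Gelbart and Jacquet; Kim and Shahidi), so `L(s, Π × Π)` is a product
  of Rankin-Selberg L-functions and has a pole at `s = 1` whose order is the factor of the logarithm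
  (Jacquet, Piatetski-Shapiro and Shalika), and the coefficients of its logarithm are not negative. Only
  this upper bound is used, no bounds for the Satake parameters. The dihedral representations satisfy the
  Ramanujan bound.
* `Exceeds l (θ_i) v`: `|θ_i(v)| > l (Nv)^{1/2}`.
* `UpperDensityLE A δ`: the upper Dirichlet density of the set `A` of primes is at most `δ`.

The family can consist of the conjugates of one character under the automorphisms of `ℂ`, or, if `K` is
Galois over `K'`, under `Gal(K/K')`.
-/

set_option autoImplicit false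

namespace Pool.Agent.Results.MP_4819b8_nt.FamiliesAtAlmostAllPrimes

open NumberField IsDedekindDomain
open Pool.Agent.V8H25.RP

open Classical in
/-- **Families at almost all primes.** Let the `θ_i` satisfy `RankinSelberg`.

1. For two different indices `i`, `j` and `l > 1` the primes `v` at which `|θ_i(v)|` and `|θ_j(v)|` are
   both greater than `l (Nv)^{1/2}` have upper density at most `1 / (1 + (l² - 1)²)²`; for `l = 2` this is
   `1 / 100`.
2. For a set of `r` indices and `l ≥ 2` the primes `v` at which all of these `i` satisfy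
   `|θ_i(v)| > l (Nv)^{1/2}` have upper density at most
   `1 / (1 + r ((l² - 1)² + (l⁴ - 3 l² + 1)²))`; for `l = 2` this is `1 / (1 + 34 r)`.
3. For a set of `r ≥ 1` indices and `ε > 0` the primes at which at least the proportion `1/10 + ε` of these
   `i` violates the Ramanujan bound `|θ_i(v)| ≤ 2 (Nv)^{1/2}` have upper density at most
   `153 / (153 + 5000 ε² r)`.
4. For a set of `r ≥ 1` indices and `δ > 0` the primes at which the mean of `a_i²` over these `i` differs
   from `1` by `δ` or more have upper density at most `1 / (δ² r)`; the same is true of the mean of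
   `a_i⁴ - 3 a_i² + 1` and its value `0` for the law of Sato and Tate.
5. For a set of `r ≥ 1` indices and `δ > 0` the primes with `∏_i |θ_i(v)|² ≥ ((1 + δ) Nv)^r` have upper
   density at most `1 / (1 + δ² r)`.
6. If the family is infinite and `l > 1`, then the primes at which all `i` satisfy
   `|θ_i(v)| > l (Nv)^{1/2}` have density zero. -/
theorem result (K : Type) [Field K] [NumberField K] (ι : Type)
    (θ : ι → HeightOneSpectrum (𝓞 K) → ℂ) (h : RankinSelberg θ) :
    (∀ (i j : ι), i ≠ j → ∀ l : ℝ, 1 < l →
      UpperDensityLE {v | Exceeds l (θ i) v ∧ Exceeds l (θ j) v} (1 / (1 + (l ^ 2 - 1) ^ 2) ^ 2)) ∧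
    (∀ (t : Finset ι) (l : ℝ), 2 ≤ l →
      UpperDensityLE {v | ∀ i ∈ t, Exceeds l (θ i) v}
        (1 / (1 + t.card * ((l ^ 2 - 1) ^ 2 + (l ^ 4 - 3 * l ^ 2 + 1) ^ 2)))) ∧
    (∀ (t : Finset ι), t.Nonempty → ∀ ε : ℝ, 0 < ε →
      UpperDensityLE {v | (1 / 10 + ε) * t.card ≤ ((t.filter fun i => Exceeds 2 (θ i) v).card : ℝ)}
        (153 / (153 + 5000 * ε ^ 2 * t.card))) ∧
    (∀ (t : Finset ι), t.Nonempty → ∀ δ : ℝ, 0 < δ →
      UpperDensityLE {v | δ ≤ |(∑ i ∈ t, ad (θ i) v) / t.card|} (1 / (δ ^ 2 * t.card)) ∧
        UpperDensityLE {v | δ ≤ |(∑ i ∈ t, a4 (θ i) v) / t.card|} (1 / (δ ^ 2 * t.card))) ∧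
    (∀ (t : Finset ι), t.Nonempty → ∀ δ : ℝ, 0 < δ →
      UpperDensityLE {v | ((1 + δ) * nv v) ^ t.card ≤ (∏ i ∈ t, ‖θ i v‖) ^ 2}
        (1 / (1 + δ ^ 2 * t.card))) ∧
    (Infinite ι → ∀ l : ℝ, 1 < l → UpperDensityLE {v | ∀ i, Exceeds l (θ i) v} 0) :=
  ⟨fun _ _ hij _ hl => two_exceed h hij hl, fun t _ hl => all_exceed h t hl,
    fun t ht _ hε => share h hε t ht, fun t ht _ hδ => ⟨mean_two h t ht hδ, mean_four h t ht hδ⟩,
    fun t ht _ hδ => geometric h t ht hδ, fun _ _ hl => infinite_all h hl⟩

end Pool.Agent.Results.MP_4819b8_nt.FamiliesAtAlmostAllPrimes
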