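import Pool.Agent.V8H88.SN.Values
import Pool.Agent.V8H88.SN.More

/-!
# The Ramanujan–Petersson bound at primes of small norm, for all number fields and all levels

Let `K` be a number field and let `θ` be a cuspidal character of the Hecke algebra `𝕋_1(𝔫)` (weight 2, `GL_2` over `K`).
Its values lie in a number field `E`; for the embeddings `ι : E → ℂ` the conjugates `ι ∘ θ` are again cuspidal
characters of `𝕋_1(𝔫)`. Let `v ∤ 𝔫` be a prime of norm `q`, `a = θ(T_v)`, `w = θ(S_v)`. The following facts are used; they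
are collected in the structure `Eigenvalue`:

* `a` is an algebraic integer (`𝕋_1(𝔫)` acts on the integral cohomology), `w` is a root of unity;
* for every embedding `ι` the complex conjugate of `ι(a)` is `ι(a) / ι(w)` (Petersson scalar product);
* `|ι(a)| ≤ q^(1/2) (q^(7/64) + q^(-7/64))` (Kim–Sarnak; Blomer–Brumley for number fields).

Then `x = a² / w` is an algebraic integer all of whose conjugates `|ι(a)|²` lie in the interval `[0, 4q + δ]`,
`δ = q (q^(7/64) - q^(-7/64))²`, and the bound of Ramanujan–Petersson fails at `v` for `ι ∘ θ` exactly if `|ι(a)|²` lies in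
the short interval `(4q, 4q + δ]`. For `q ≤ 5` its length is smaller than `1`, and integer polynomials which are small
there bound the share of the failures, because the norm of a nonzero algebraic integer is at least `1` in absolute value.

(1) At a prime of norm 2, 3, 4, 5 the bound holds for at least 60, 42, 26, 18 percent of the conjugates of every `θ`,
for every `K` and every level. At a prime of norm 7, 8, 9, 11 it holds for at least 16, 9, 8, 0.4 percent of the
conjugates, unless `|θ(T_v)|²` is `29` (norm 7), `33` (norm 8), `37` or `38` (norm 9), `45`, `46`, `47` or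
`(91 ± √5)/2` (norm 11). These are the values for which the bound would fail for all conjugates; so in the range
`N(v) ≤ 11`, where the interval of the failures has length less than `4` and contains only finitely many complete sets of
conjugate algebraic integers, nothing else can prevent a positive proportion.

(2) If `[E : ℚ] ≤ 2` it holds at all primes of norm 2.

(3) If `θ(T_v)` is a rational integer it holds for `N(v) = 2, 3, 4, 5, 7, 8, 9, 11, 13, 16, 17, 25, 31`.

(4) If `θ(S_v) = 1` and `θ(T_v)` has degree at most 2 it holds for `N(v) = 2, 3, 4`.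

(5) A bound with any exponent `t` in place of `7/64` gives the share `log(4q) / log(4q/δ)`, `δ = q (q^t - q^(-t))²`.
-/

set_option autoImplicit false

namespace Pool.Agent.Results.MP_4819b8_nt.SmallNorms

open Pool.Agent.V8H88.SN NumberField IsDedekindDomain

/-- the number of embeddings `ι` of the coefficient field such that `|ι(a)| ≤ 2 q^(1/2)` fails -/
noncomputable def failures (E : Type) [Field E] (q : ℕ) (a : E) : ℕ :=
  Nat.card {ι : E →+* ℂ // Fails q (ι a)}

theorem result (K : Type) [Field K] [NumberField K] (E : Type) [Field E] [NumberField E]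
    (level : Set (HeightOneSpectrum (𝓞 K))) (T S : HeightOneSpectrum (𝓞 K) → E) :
    ((∀ v ∉ level, Eigenvalue E (Ideal.absNorm v.asIdeal) (7 / 64) (T v) (S v)) → ∀ v ∉ level,
      (Ideal.absNorm v.asIdeal = 2 → 5 * failures E 2 (T v) ≤ 2 * Module.finrank ℚ E) ∧
      (Ideal.absNorm v.asIdeal = 3 → 50 * failures E 3 (T v) ≤ 29 * Module.finrank ℚ E) ∧
      (Ideal.absNorm v.asIdeal = 4 → 50 * failures E 4 (T v) ≤ 37 * Module.finrank ℚ E) ∧
      (Ideal.absNorm v.asIdeal = 5 → 50 * failures E 5 (T v) ≤ 41 * Module.finrank ℚ E) ∧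
      (Ideal.absNorm v.asIdeal = 7 → T v ^ 2 ≠ 29 * S v →
        25 * failures E 7 (T v) ≤ 21 * Module.finrank ℚ E) ∧
      (Ideal.absNorm v.asIdeal = 8 → T v ^ 2 ≠ 33 * S v →
        100 * failures E 8 (T v) ≤ 91 * Module.finrank ℚ E) ∧
      (Ideal.absNorm v.asIdeal = 9 → T v ^ 2 ≠ 37 * S v → T v ^ 2 ≠ 38 * S v →
        25 * failures E 9 (T v) ≤ 23 * Module.finrank ℚ E) ∧
      (Ideal.absNorm v.asIdeal = 11 → T v ^ 2 ≠ 45 * S v → T v ^ 2 ≠ 46 * S v → T v ^ 2 ≠ 47 * S v →
        T v ^ 4 - 91 * T v ^ 2 * S v + 2069 * S v ^ 2 ≠ 0 →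
        250 * failures E 11 (T v) ≤ 249 * Module.finrank ℚ E) ∧
      (Ideal.absNorm v.asIdeal = 2 → Module.finrank ℚ E ≤ 2 → ∀ ι : E →+* ℂ, ¬ Fails 2 (ι (T v))) ∧
      ((∃ n : ℤ, T v = n) →
        Ideal.absNorm v.asIdeal ∈ ({2, 3, 4, 5, 7, 8, 9, 11, 13, 16, 17, 25, 31} : Finset ℕ) →
          ∀ ι : E →+* ℂ, ¬ Fails (Ideal.absNorm v.asIdeal) (ι (T v))) ∧
      (S v = 1 → (minpoly ℚ (T v)).natDegree ≤ 2 → Ideal.absNorm v.asIdeal ∈ ({2, 3, 4} : Finset ℕ) →
          ∀ ι : E →+* ℂ, ¬ Fails (Ideal.absNorm v.asIdeal) (ι (T v)))) ∧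
    (∀ t : ℝ, 0 < t →
      (∀ v ∉ level, Eigenvalue E (Ideal.absNorm v.asIdeal) t (T v) (S v)) → ∀ v ∉ level, ∀ q : ℕ,
        q = Ideal.absNorm v.asIdeal →
          (failures E q (T v) : ℝ) * Real.log (4 * q / (q * ((q : ℝ) ^ t - (q : ℝ) ^ (-t)) ^ 2)) ≤
            Module.finrank ℚ E * Real.log (4 * q)) := by
  refine ⟨fun h v hv => ⟨fun hq => ?_, fun hq => ?_, fun hq => ?_, fun hq => ?_, fun hq h29 => ?_, fun hq h33 => ?_,
    fun hq h37 h38 => ?_, fun hq h45 h46 h47 hquad => ?_, fun hq hE ι hf => ?_, ?_, ?_⟩, ?_⟩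
  · have := h v hv
    rw [hq] at this
    exact this.two
  · have := h v hv
    rw [hq] at this
    exact this.three
  · have := h v hv
    rw [hq] at this
    exact this.four
  · have := h v hv
    rw [hq] at this
    exact this.five
  · have := h v hv
    rw [hq] at this
    exact this.seven h29
  · have := h v hv
    rw [hq] at this
    exact this.eight h33
  · have := h v hv
    rw [hq] at this
    exact this.nine h37 h38
  · have := h v hv
    rw [hq] at this
    exact this.eleven h45 h46 h47 hquad
  · have h1 := h v hv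
    rw [hq] at h1
    have h2 := h1.two
    have h3 : 0 < Nat.card {ι : E →+* ℂ // Fails 2 (ι (T v))} := by
      have : Nonempty {ι : E →+* ℂ // Fails 2 (ι (T v))} := ⟨⟨ι, hf⟩⟩
      have : Finite {ι : E →+* ℂ // Fails 2 (ι (T v))} := by
        have : Finite (E →+* ℂ) := Finite.of_injective _ (RingHom.equivRatAlgHom (R := E) (S := ℂ)).injective
        infer_instance
      exact Nat.card_pos
    omega
  · rintro ⟨n, hn⟩ hq ι
    exact (h v hv).rational n hn hq ι
  · intro hS hd hq ι
    have h1 := h v hv
    rw [hS] at h1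
    exact h1.quadratic hd hq ι
  · rintro t ht h v hv q rfl
    refine (h v hv).general ?_ ht
    have h1 : Ideal.absNorm v.asIdeal ≠ 1 := by
      rw [Ne, Ideal.absNorm_eq_one_iff]
      exact v.isPrime.ne_top
    have h0 : Ideal.absNorm v.asIdeal ≠ 0 := by
      rw [Ne, Ideal.absNorm_eq_zero_iff]
      exact v.ne_bot
    omega

end Pool.Agent.Results.MP_4819b8_nt.SmallNorms
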